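import Pool.Agent.PQP.StmtsZ

/-!
# Squad PQP, row D2 (helper25): the plane case, transport along an isometry from `ℂ`
-/

set_option autoImplicit false

open scoped InnerProductSpace Topology ContDiff Manifold
open MeasureTheory Filter Set

noncomputable section

namespace Pool.Agent.PQP.H25

open Pool.Agent.Helper42_Paneitz Pool.Agent.Helper82_Vir Pool.Agent.FLX Pool.Agent.PQP

theorem ee40 : ⟪ee 4, ee 0⟫_ℝ = 0 := inner_ee_ee (by decide)

theorem ee04 : ⟪ee 0, ee 4⟫_ℝ = 0 := inner_ee_ee (by decide)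

theorem mem_P2 (a b : ℝ) : a • ee 4 + b • ee 0 ∈ P2 :=
  Submodule.mem_span_pair.2 ⟨a, b, rfl⟩

theorem exists_P2 {v : E5} (hv : v ∈ P2) : ∃ a b : ℝ, v = a • ee 4 + b • ee 0 := by
  obtain ⟨a, b, h⟩ := Submodule.mem_span_pair.1 hv
  exact ⟨a, b, h.symm⟩

theorem inner_comb (a b c d : ℝ) :
    ⟪a • ee 4 + b • ee 0, c • ee 4 + d • ee 0⟫_ℝ = a * c + b * d := by
  rw [inner_add_left, inner_add_right, inner_add_right]
  simp only [inner_smul_left, inner_smul_right, ee40, ee04, real_inner_self_eq_norm_sq, norm_ee]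
  simp
  ring

theorem norm_comb (a b : ℝ) : ‖a • ee 4 + b • ee 0‖ ^ 2 = a ^ 2 + b ^ 2 := by
  rw [← real_inner_self_eq_norm_sq, inner_comb]
  ring

/-- the linear isometry of `ℂ` and `P2` -/
def ioL : ℂ →ₗ[ℝ] P2 where
  toFun z := ⟨z.re • ee 4 + z.im • ee 0, mem_P2 _ _⟩
  map_add' z w := by
    apply Subtype.ext
    simp only [Complex.add_re, Complex.add_im, Submodule.coe_add]
    module
  map_smul' c z := by
    apply Subtype.ext
    simp only [Complex.real_smul, Complex.mul_re, Complex.ofReal_re, Complex.ofReal_im,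
      Complex.mul_im, RingHom.id_apply, Submodule.coe_smul, zero_mul, sub_zero, add_zero]
    module

theorem ioL_apply (z : ℂ) : ((ioL z : P2) : E5) = z.re • ee 4 + z.im • ee 0 := rfl

theorem norm_ioL (z : ℂ) : ‖ioL z‖ = ‖z‖ := by
  have h1 : ‖ioL z‖ ^ 2 = ‖z‖ ^ 2 := by
    rw [Submodule.coe_norm, ioL_apply, norm_comb, Complex.sq_norm, Complex.normSq_apply]
    ring
  exact (sq_eq_sq₀ (norm_nonneg _) (norm_nonneg _)).1 h1

/-- the same as an equivalence -/
def io : ℂ ≃ₗᵢ[ℝ] P2 :=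
  LinearIsometryEquiv.ofSurjective ⟨ioL, norm_ioL⟩ (by
    rintro ⟨v, hv⟩
    obtain ⟨a, b, h⟩ := exists_P2 hv
    refine ⟨⟨a, b⟩, ?_⟩
    apply Subtype.ext
    show a • ee 4 + b • ee 0 = v
    exact h.symm)

theorem io_apply (z : ℂ) : ((io z : P2) : E5) = z.re • ee 4 + z.im • ee 0 := rfl

theorem coe_cir (φ : ℝ) : (cir φ : E5) = Real.cos φ • ee 4 + Real.sin φ • ee 0 := rfl

theorem nrm_cir (φ : ℝ) : nrm (cir φ : E5) = cir φ := by
  have hn : ‖(cir φ : E5)‖ = 1 := mem_sphere_zero_iff_norm.1 (cir φ).2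
  have h0 : (cir φ : E5) ≠ 0 := by
    intro h
    rw [h, norm_zero] at hn
    exact zero_ne_one hn
  unfold nrm
  rw [dif_neg h0]
  apply Subtype.ext
  show ‖(cir φ : E5)‖⁻¹ • (cir φ : E5) = (cir φ : E5)
  rw [hn, inv_one, one_smul]

theorem exists_cir {p : S4} (hp : (p : E5) ∈ P2) : ∃ φ : ℝ, p = cir φ := by
  obtain ⟨a, b, h⟩ := exists_P2 hp
  have hn : ‖(p : E5)‖ = 1 := mem_sphere_zero_iff_norm.1 p.2
  have h1 : a ^ 2 + b ^ 2 = 1 := by
    rw [← norm_comb, ← h, hn, one_pow]
  have h2 : ‖(⟨a, b⟩ : ℂ)‖ = 1 := by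
    have : ‖(⟨a, b⟩ : ℂ)‖ ^ 2 = 1 := by
      rw [Complex.sq_norm, Complex.normSq_mk]
      linarith
    have h0 := norm_nonneg (⟨a, b⟩ : ℂ)
    nlinarith
  refine ⟨Complex.arg ⟨a, b⟩, ?_⟩
  apply Subtype.ext
  have hc : Real.cos (Complex.arg ⟨a, b⟩) = a := by
    have := Complex.norm_mul_cos_arg (⟨a, b⟩ : ℂ)
    rwa [h2, one_mul] at this
  have hs : Real.sin (Complex.arg ⟨a, b⟩) = b := by
    have := Complex.norm_mul_sin_arg (⟨a, b⟩ : ℂ)
    rwa [h2, one_mul] at this
  rw [coe_cir, hc, hs, h]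

theorem io_exp (φ : ℝ) : ((io (Complex.exp (φ * Complex.I)) : P2) : E5) = (cir φ : E5) := by
  rw [io_apply, Complex.exp_ofReal_mul_I_re, Complex.exp_ofReal_mul_I_im]
  rfl

theorem inner_cir_cid (φ a b : ℝ) (v : E5) (hv : v = a • ee 4 + b • ee 0)
    (h0 : ⟪(cir φ : E5), v⟫_ℝ = 0) : v = ⟪cid φ, v⟫_ℝ • cid φ := by
  have hc : cid φ = (-(Real.sin φ)) • ee 4 + Real.cos φ • ee 0 := rfl
  have e1 : Real.cos φ * a + Real.sin φ * b = 0 := by
    rw [hv, coe_cir, inner_comb] at h0
    exact h0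
  have e2 : ⟪cid φ, v⟫_ℝ = -(Real.sin φ) * a + Real.cos φ * b := by
    rw [hv, hc, inner_comb]
  have hcs := Real.cos_sq_add_sin_sq φ
  have ha : a = (-(Real.sin φ) * a + Real.cos φ * b) * (-(Real.sin φ)) := by
    linear_combination (-a) * hcs + Real.cos φ * e1
  have hb : b = (-(Real.sin φ) * a + Real.cos φ * b) * Real.cos φ := by
    linear_combination (-b) * hcs + Real.sin φ * e1
  rw [e2, hc, smul_add, smul_smul, smul_smul, ← ha, ← hb]
  exact hv

theorem d2 (hz : ZanStmt) (he : EssStmt) (hm : MdcStmt) : D2Stmt := by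
  intro ψ r α hψ hInv hr hα hval hne
  obtain ⟨hmc, hmv⟩ := hm P2 ψ hψ hInv
  refine hz P2 ψ hψ hInv ?_ ?_ ?_
  · intro h
    have h1 : ee 4 ∈ P2 := Submodule.subset_span (by simp)
    rw [h, Submodule.mem_bot] at h1
    have := norm_ee 4
    rw [h1, norm_zero] at this
    exact zero_ne_one this
  · intro p hp hcrit
    obtain ⟨φ, rfl⟩ := exists_cir hp
    obtain ⟨h0, h1, h2⟩ := hval φ
    have hs : r φ * Real.sin (α φ) = 0 := by rw [← h2]; exact hcrit _
    have hs' : Real.sin (α φ) = 0 := by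
      rcases mul_eq_zero.1 hs with h | h
      · exact absurd h h0.ne'
      · exact h
    intro hΔ
    rw [hΔ, neg_zero] at h1
    have hc' : Real.cos (α φ) = 0 := by
      rcases mul_eq_zero.1 h1.symm with h | h
      · exact absurd h h0.ne'
      · exact h
    have := Real.cos_sq_add_sin_sq (α φ)
    rw [hs', hc'] at this
    norm_num at this
  · intro hI
    obtain ⟨β', T', hβc, ⟨hTc, K, hK, hTK⟩, hbd, hno⟩ := hI
    -- the map of the plane
    set b : ℂ → ℂ := fun z => io.symm (mdl P2 ψ (io z)) with hb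
    have hbc : Continuous b := io.symm.continuous.comp (hmc.comp io.continuous)
    have hbe : ∀ φ : ℝ, b (Complex.exp (φ * Complex.I)) =
        r φ * Complex.exp (((φ + α φ : ℝ) : ℂ) * Complex.I) := by
      intro φ
      rw [hb]
      simp only
      rw [LinearIsometryEquiv.symm_apply_eq]
      apply Subtype.ext
      rw [hmv, io_exp, nrm_cir]
      have hn : ‖io (Complex.exp (φ * Complex.I))‖ = 1 := by
        rw [LinearIsometryEquiv.norm_map, Complex.norm_exp_ofReal_mul_I]
      rw [hn, one_smul]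
      -- the gradient is in `P2`
      have hmw : mw ψ (cir φ) ∈ P2 := by
        have := (mdl P2 ψ (io (Complex.exp (φ * Complex.I)))).2
        rw [hmv, io_exp, nrm_cir, hn, one_smul] at this
        exact this
      have hgd : gd ψ (cir φ) ∈ P2 := by
        have h3 : gd ψ (cir φ) = mw ψ (cir φ) -
            (-(sphLaplacian ψ (cir φ))) • (cir φ : E5) := by
          unfold mw
          abel
        rw [h3]
        refine Submodule.sub_mem _ hmw (Submodule.smul_mem _ _ ?_)
        rw [coe_cir]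
        exact mem_P2 _ _
      obtain ⟨a, c, hac⟩ := exists_P2 hgd
      have horth : ⟪(cir φ : E5), gd ψ (cir φ)⟫_ℝ = 0 := by
        rw [inner_gd]
        exact dd_self hψ _
      have hgd2 := inner_cir_cid φ a c _ hac horth
      rw [inner_gd] at hgd2
      obtain ⟨h0, h1, h2⟩ := hval φ
      have hc : cid φ = (-(Real.sin φ)) • ee 4 + Real.cos φ • ee 0 := rfl
      unfold mw
      rw [hgd2, h1, h2, io_apply, coe_cir, hc]
      have hre : ((r φ : ℂ) * Complex.exp (((φ + α φ : ℝ) : ℂ) * Complex.I)).re =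
          r φ * Real.cos (φ + α φ) := by
        rw [Complex.re_ofReal_mul, Complex.exp_ofReal_mul_I_re]
      have him : ((r φ : ℂ) * Complex.exp (((φ + α φ : ℝ) : ℂ) * Complex.I)).im =
          r φ * Real.sin (φ + α φ) := by
        rw [Complex.im_ofReal_mul, Complex.exp_ofReal_mul_I_im]
      rw [hre, him, Real.cos_add, Real.sin_add]
      module
    have hθ : Continuous fun φ : ℝ => φ + α φ := continuous_id.add hα
    refine he (EE P2) b r (fun φ => φ + α φ) hbc hr hθ (fun φ => (hval φ).1) hbe ?_ ?_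
    · intro h
      apply hne
      simp only [zero_add] at h
      linarith
    · -- transport
      have hmap : MapsTo (fun z : ℂ × EE P2 => ((io z.1 : P2), z.2)) (Dm ℂ (EE P2))
          (Dm P2 (EE P2)) := by
        intro z hz
        exact ⟨by rw [LinearIsometryEquiv.norm_map]; exact hz.1, hz.2⟩
      have hcont : Continuous (fun z : ℂ × EE P2 => ((io z.1 : P2), z.2)) :=
        (io.continuous.comp continuous_fst).prodMk continuous_snd
      refine ⟨fun z => io.symm (β' (io z.1, z.2)), fun z => T' (io z.1, z.2), ?_, ⟨?_, K, hK, ?_⟩,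
        ?_, ?_⟩
      · exact io.symm.continuous.comp_continuousOn (hβc.comp hcont.continuousOn hmap)
      · exact hTc.comp hcont.continuousOn hmap
      · intro z hz
        exact hTK _ (hmap hz)
      · intro z hz
        have hz' : ((io z.1 : P2), z.2) ∈ Bd P2 (EE P2) := by
          refine ⟨?_, hz.2.1, ?_⟩
          · rw [LinearIsometryEquiv.norm_map]; exact hz.1
          · rw [LinearIsometryEquiv.norm_map]; exact hz.2.2
        obtain ⟨h1, h2⟩ := hbd _ hz'
        refine ⟨?_, h2⟩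
        show io.symm (β' (io z.1, z.2)) = b z.1
        rw [h1]
      · intro z hz hzero
        refine hno _ (hmap hz) ⟨?_, hzero.2⟩
        have h3 : io.symm (β' (io z.1, z.2)) = 0 := hzero.1
        exact (map_eq_zero_iff io.symm io.symm.injective).1 h3

end Pool.Agent.PQP.H25
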