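import Pool.Agent.PQP.StmtsT

/-!
# Squad PQP, row LFT (helper25): a continuous angle of a C¹ curve without zeros
-/

set_option autoImplicit false

open scoped Topology
open Filter Set

noncomputable section

namespace Pool.Agent.PQP.H25

open Pool.Agent.PQP

theorem lft : LftStmt := by
  intro γ γ' hd hc hne
  have hγc : Continuous γ := continuous_iff_continuousAt.2 fun φ => (hd φ).continuousAt
  have hqc : Continuous fun φ => γ' φ / γ φ := hc.div hγc hne
  set L : ℝ → ℂ := fun φ => ∫ t in (0 : ℝ)..φ, γ' t / γ t with hL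
  have hLd : ∀ φ, HasDerivAt L (γ' φ / γ φ) φ := fun φ =>
    intervalIntegral.integral_hasDerivAt_right (hqc.intervalIntegrable _ _)
      (hqc.stronglyMeasurableAtFilter _ _) hqc.continuousAt
  have hLc : Continuous L := continuous_iff_continuousAt.2 fun φ => (hLd φ).continuousAt
  have hL0 : L 0 = 0 := by simp [hL]
  have hconst : ∀ φ, γ φ * Complex.exp (-L φ) = γ 0 := by
    have hdd : ∀ φ, HasDerivAt (fun φ => γ φ * Complex.exp (-L φ)) 0 φ := by
      intro φ
      have h1 := (hd φ).mul ((hLd φ).neg.cexp)
      have e : γ' φ * Complex.exp (-L φ) + γ φ * (Complex.exp (-L φ) * -(γ' φ / γ φ)) = 0 := by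
        have := hne φ
        field_simp
        ring
      rw [← e]
      exact h1
    intro φ
    have := is_const_of_deriv_eq_zero (fun φ => (hdd φ).differentiableAt)
      (fun φ => (hdd φ).deriv) φ 0
    simp only [hL0, neg_zero, Complex.exp_zero, mul_one] at this
    exact this
  have hγ : ∀ φ, γ φ = γ 0 * Complex.exp (L φ) := by
    intro φ
    rw [← hconst φ, mul_assoc, ← Complex.exp_add]
    simp
  refine ⟨fun φ => ‖γ 0‖ * Real.exp (L φ).re, fun φ => Complex.arg (γ 0) + (L φ).im, ?_, ?_, ?_, ?_⟩
  · exact continuous_const.mul (Real.continuous_exp.comp (Complex.continuous_re.comp hLc))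
  · exact continuous_const.add (Complex.continuous_im.comp hLc)
  · intro φ
    have := norm_pos_iff.2 (hne 0)
    positivity
  · intro φ
    rw [hγ φ]
    have h1 : γ 0 = ‖γ 0‖ * Complex.exp (Complex.arg (γ 0) * Complex.I) :=
      (Complex.norm_mul_exp_arg_mul_I (γ 0)).symm
    have h2 : L φ = (L φ).re + (L φ).im * Complex.I := (Complex.re_add_im (L φ)).symm
    calc γ 0 * Complex.exp (L φ)
        = (‖γ 0‖ * Complex.exp (Complex.arg (γ 0) * Complex.I)) *
            Complex.exp ((L φ).re + (L φ).im * Complex.I) := by rw [← h1, ← h2]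
      _ = ((‖γ 0‖ * Real.exp (L φ).re : ℝ) : ℂ) *
            Complex.exp (((Complex.arg (γ 0) + (L φ).im : ℝ) : ℂ) * Complex.I) := by
          push_cast
          rw [Complex.exp_add, add_mul, Complex.exp_add]
          ring

end Pool.Agent.PQP.H25
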