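import Pool.Agent.PQP.StmtsC

/-!
# Squad PQP, row GSM (helper25): the Green function of a cap is small on thin sets
-/

set_option autoImplicit false

open scoped InnerProductSpace Topology ContDiff Manifold
open MeasureTheory Filter Set

noncomputable section

namespace Pool.Agent.PQP.H25

open Pool.Agent.Helper42_Paneitz Pool.Agent.Helper82_Vir Pool.Agent.FLX Pool.Agent.PQP

theorem log_one_add_le_sqrt {u : ℝ} (hu : 0 ≤ u) : Real.log (1 + u) ≤ √u := by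
  set t := √u with ht
  have ht0 : 0 ≤ t := Real.sqrt_nonneg _
  have htu : t ^ 2 = u := Real.sq_sqrt hu
  rw [Real.log_le_iff_le_exp (by linarith), ← htu]
  have h := Real.sum_le_exp_of_nonneg ht0 4
  simp only [Finset.sum_range_succ, Finset.range_zero, Finset.sum_empty, Nat.factorial] at h
  norm_num at h
  have h2 : 0 ≤ t * ((1 / 6) * t ^ 2 - (1 / 2) * t + 1) := by
    apply mul_nonneg ht0
    nlinarith [sq_nonneg (t - 3 / 2)]
  nlinarith

theorem inner_le_one (x y : S4) : ⟪(x : E5), (y : E5)⟫_ℝ ≤ 1 := by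
  have h := real_inner_le_norm (x : E5) (y : E5)
  have hx : ‖(x : E5)‖ = 1 := mem_sphere_zero_iff_norm.1 x.2
  have hy : ‖(y : E5)‖ = 1 := mem_sphere_zero_iff_norm.1 y.2
  rw [hx, hy] at h
  linarith

theorem capG_nonneg {e : S4} {s : ℝ} (h1 : -1 < s) (h2 : s < 1) {x y : S4} (hx : x ∈ hcap e s)
    (hy : y ∈ hcap e s) : 0 ≤ capG e s x y := by
  unfold capG
  apply Real.log_nonneg
  have hxe : s ≤ ⟪(e : E5), (x : E5)⟫_ℝ := hx
  have hye : s ≤ ⟪(e : E5), (y : E5)⟫_ℝ := hy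
  have h3 : 0 ≤ 2 * (⟪(e : E5), (x : E5)⟫_ℝ - s) * (⟪(e : E5), (y : E5)⟫_ℝ - s) :=
    mul_nonneg (mul_nonneg (by norm_num) (by linarith)) (by linarith)
  have h4 : 0 ≤ (1 - s ^ 2) * (1 - ⟪(x : E5), (y : E5)⟫_ℝ) := by
    apply mul_nonneg
    · nlinarith
    · linarith [inner_le_one x y]
  have := div_nonneg h3 h4
  linarith

theorem capG_le {e : S4} {s h : ℝ} (h1 : -1 < s) (h2 : s < 1) (hh : 0 ≤ h) {x y : S4}
    (hx : x ∈ hcap e s) (hy : s ≤ ⟪(e : E5), (y : E5)⟫_ℝ)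
    (hy2 : ⟪(e : E5), (y : E5)⟫_ℝ ≤ s + h) :
    capG e s x y ≤ √2 * √(h / (1 + s)) * (1 - ⟪(x : E5), (y : E5)⟫_ℝ) ^ (-(1 / 2 : ℝ)) := by
  have hxe : s ≤ ⟪(e : E5), (x : E5)⟫_ℝ := hx
  have hxe1 : ⟪(e : E5), (x : E5)⟫_ℝ ≤ 1 := inner_le_one e x
  have hp : 0 < 1 + s := by linarith
  have hm : 0 < 1 - s := by linarith
  have hd0 : 0 ≤ 1 - ⟪(x : E5), (y : E5)⟫_ℝ := by linarith [inner_le_one x y]
  set d := 1 - ⟪(x : E5), (y : E5)⟫_ℝ with hd
  rcases hd0.eq_or_lt with h0 | h0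
  · unfold capG
    rw [← hd, ← h0, mul_zero, div_zero, add_zero, Real.log_one,
      Real.zero_rpow (by norm_num), mul_zero]
  · have hnum : 0 ≤ 2 * (⟪(e : E5), (x : E5)⟫_ℝ - s) * (⟪(e : E5), (y : E5)⟫_ℝ - s) :=
      mul_nonneg (mul_nonneg (by norm_num) (by linarith)) (by linarith)
    have hs2 : (1 - s ^ 2) = (1 + s) * (1 - s) := by ring
    have hden : 0 < (1 - s ^ 2) * d := by
      rw [hs2]; positivity
    have hu : 2 * (⟪(e : E5), (x : E5)⟫_ℝ - s) * (⟪(e : E5), (y : E5)⟫_ℝ - s) /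
        ((1 - s ^ 2) * d) ≤ 2 * (h / (1 + s)) * d⁻¹ := by
      rw [div_le_iff₀ hden]
      have e1 : 2 * (h / (1 + s)) * d⁻¹ * ((1 - s ^ 2) * d) = 2 * (1 - s) * h := by
        rw [hs2]
        field_simp
      rw [e1]
      have a1 : ⟪(e : E5), (x : E5)⟫_ℝ - s ≤ 1 - s := by linarith
      have a2 : ⟪(e : E5), (y : E5)⟫_ℝ - s ≤ h := by linarith
      have a3 : 0 ≤ ⟪(e : E5), (y : E5)⟫_ℝ - s := by linarith
      have := mul_le_mul a1 a2 a3 hm.le
      nlinarith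
    have hu0 := div_nonneg hnum hden.le
    unfold capG
    rw [← hd]
    have hhs : 0 ≤ h / (1 + s) := div_nonneg hh hp.le
    calc Real.log (1 + 2 * (⟪(e : E5), (x : E5)⟫_ℝ - s) * (⟪(e : E5), (y : E5)⟫_ℝ - s) /
          ((1 - s ^ 2) * d))
        ≤ √(2 * (⟪(e : E5), (x : E5)⟫_ℝ - s) * (⟪(e : E5), (y : E5)⟫_ℝ - s) /
          ((1 - s ^ 2) * d)) := log_one_add_le_sqrt hu0
      _ ≤ √(2 * (h / (1 + s)) * d⁻¹) := Real.sqrt_le_sqrt hu
      _ = √2 * √(h / (1 + s)) * d ^ (-(1 / 2 : ℝ)) := by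
          rw [Real.sqrt_mul (by positivity), Real.sqrt_mul (by norm_num), Real.rpow_neg h0.le,
            ← Real.sqrt_eq_rpow, Real.sqrt_inv]

theorem measurable_capG (e : S4) (s : ℝ) (x : S4) : Measurable (fun y : S4 => capG e s x y) := by
  unfold capG
  have h1 : Measurable (fun y : S4 => ⟪(e : E5), (y : E5)⟫_ℝ) :=
    (Continuous.inner continuous_const continuous_subtype_val).measurable
  have h2 : Measurable (fun y : S4 => ⟪(x : E5), (y : E5)⟫_ℝ) :=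
    (Continuous.inner continuous_const continuous_subtype_val).measurable
  exact Real.measurable_log.comp
    (((measurable_const.mul (h1.sub_const s)).div
      (measurable_const.mul (measurable_const.sub h2))).const_add 1)

theorem gsm (pow : PowStmt) : GsmStmt := by
  obtain ⟨C₀, hC₀, hpow⟩ := pow (1 / 2) (by norm_num)
  refine ⟨4 * √2 * C₀ + 1, by positivity, ?_⟩
  intro e s h M f P x h1 h2 hh hf hf0 hfM hP hPs hx
  obtain ⟨hint, hle⟩ := hpow x
  have hM : 0 ≤ M := (hf0 x).trans (hfM x)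
  set c := √2 * √(h / (1 + s)) with hc
  have hc0 : 0 ≤ c := by positivity
  have hd0 : ∀ y : S4, 0 ≤ (1 - ⟪(x : E5), (y : E5)⟫_ℝ) ^ (-(1 / 2 : ℝ)) := fun y =>
    Real.rpow_nonneg (by linarith [inner_le_one x y]) _
  have hbd : ∀ y ∈ P, capG e s x y * f y ≤
      c * M * (1 - ⟪(x : E5), (y : E5)⟫_ℝ) ^ (-(1 / 2 : ℝ)) := by
    intro y hy
    have hg := capG_le h1 h2 hh hx (hPs y hy).1 (hPs y hy).2
    have hg0 : 0 ≤ capG e s x y := capG_nonneg h1 h2 hx (hPs y hy).1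
    calc capG e s x y * f y ≤ (c * (1 - ⟪(x : E5), (y : E5)⟫_ℝ) ^ (-(1 / 2 : ℝ))) * M :=
          mul_le_mul hg (hfM y) (hf0 y) (mul_nonneg hc0 (hd0 y))
      _ = _ := by ring
  have hnn : ∀ y ∈ P, 0 ≤ capG e s x y * f y := fun y hy =>
    mul_nonneg (capG_nonneg h1 h2 hx (hPs y hy).1) (hf0 y)
  have hint2 : Integrable (fun y : S4 => c * M * (1 - ⟪(x : E5), (y : E5)⟫_ℝ) ^ (-(1 / 2 : ℝ)))
      sig := hint.const_mul _
  have hintP : Integrable (fun y => capG e s x y * f y) (sig.restrict P) := by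
    refine Integrable.mono' hint2.restrict ?_ ?_
    · exact ((measurable_capG e s x).mul hf.measurable).aestronglyMeasurable
    · refine ae_restrict_of_forall_mem hP fun y hy => ?_
      rw [Real.norm_eq_abs, abs_of_nonneg (hnn y hy)]
      exact hbd y hy
  refine ⟨fun y hy => capG_nonneg h1 h2 hx hy, hintP, ?_⟩
  have hI : ∫ y in P, capG e s x y * f y ∂sig ≤ c * M * C₀ := by
    calc ∫ y in P, capG e s x y * f y ∂sig
        ≤ ∫ y in P, c * M * (1 - ⟪(x : E5), (y : E5)⟫_ℝ) ^ (-(1 / 2 : ℝ)) ∂sig :=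
          setIntegral_mono_on hintP hint2.integrableOn hP hbd
      _ ≤ ∫ y, c * M * (1 - ⟪(x : E5), (y : E5)⟫_ℝ) ^ (-(1 / 2 : ℝ)) ∂sig :=
          setIntegral_le_integral hint2
            (Eventually.of_forall fun y => mul_nonneg (mul_nonneg hc0 hM) (hd0 y))
      _ = c * M * ∫ y, (1 - ⟪(x : E5), (y : E5)⟫_ℝ) ^ (-(1 / 2 : ℝ)) ∂sig :=
          integral_const_mul _ _
      _ ≤ c * M * C₀ := mul_le_mul_of_nonneg_left hle (mul_nonneg hc0 hM)
  have hr : 0 ≤ √(h / (1 + s)) := Real.sqrt_nonneg _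
  calc 4 * ∫ y in P, capG e s x y * f y ∂sig ≤ 4 * (c * M * C₀) := by linarith
    _ = (4 * √2 * C₀) * M * √(h / (1 + s)) := by rw [hc]; ring
    _ ≤ (4 * √2 * C₀ + 1) * M * √(h / (1 + s)) := by
        apply mul_le_mul_of_nonneg_right _ hr
        apply mul_le_mul_of_nonneg_right _ hM
        linarith

end Pool.Agent.PQP.H25
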